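import Pool.Agent.Helper6.LPB.St

/-!
# Project LPB (MP_5e9b96_nt), module NLB: bounds for the number of the pairs of classes
-/

set_option autoImplicit false

noncomputable section

namespace Pool.Agent.Helper80.LPB

open Finset
open Pool.Agent.Helper60.LZ (js)
open Pool.Agent.Helper6.LP Pool.Agent.Helper6.LPB

section field

variable {F : Type} [Field F] [Fintype F] [DecidableEq F]

/-- the complete sum of the character of `s ^ 2 + 4 s` -/
private theorem sum1 (hF : ringChar F ≠ 2) (h4 : (4 : F) ≠ 0) :
    ∑ s : F, quadraticChar F (s ^ 2 + 4 * s) = -1 := by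
  have h1 : ∀ s : F, quadraticChar F (s ^ 2 + 4 * s) =
      quadraticChar F (1 + 4 * s⁻¹) - if s = 0 then 1 else 0 := by
    intro s
    by_cases hs : s = 0
    · subst hs
      simp
    · rw [if_neg hs, sub_zero]
      have h2 : s ^ 2 + 4 * s = s ^ 2 * (1 + 4 * s⁻¹) := by
        field_simp
      rw [h2, map_mul, quadraticChar_sq_one' hs, one_mul]
  have hb : Function.Bijective (fun s : F => 1 + 4 * s⁻¹) := by
    rw [← Finite.injective_iff_bijective]
    intro s s' h
    simp only [add_right_inj] at h
    exact inv_injective (mul_left_cancel₀ h4 h)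
  rw [Finset.sum_congr rfl fun s _ => h1 s, Finset.sum_sub_distrib, Finset.sum_ite_eq' univ (0 : F)]
  have h3 := hb.sum_comp (fun w => quadraticChar F w)
  rw [h3, quadraticChar_sum_zero hF]
  simp

/-- the complete sum of the character of `t ^ 2 - 4` -/
private theorem sum2 (hF : ringChar F ≠ 2) (h4 : (4 : F) ≠ 0) :
    ∑ x : F, quadraticChar F ((x + 3) ^ 2 - 4) = -1 := by
  rw [← sum1 hF h4]
  have hb : Function.Bijective (fun x : F => x + 1) := by
    rw [← Finite.injective_iff_bijective]
    intro s s' h
    exact add_right_cancel h
  have h3 := hb.sum_comp (fun s => quadraticChar F (s ^ 2 + 4 * s))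
  rw [← h3]
  refine Finset.sum_congr rfl fun x _ => ?_
  congr 1
  ring

end field

private theorem js_eq (l j : ℕ) [Fact l.Prime] :
    js (j + 3) l = ((quadraticChar (ZMod l) (((j : ZMod l) + 3) ^ 2 - 4) : ℤ) : ℝ) := by
  unfold js
  rw [← jacobiSym.legendreSym.to_jacobiSym]
  unfold legendreSym
  have h3 : (((((j + 3 : ℕ) : ℤ) ^ 2 - 4 : ℤ)) : ZMod l) = ((j : ZMod l) + 3) ^ 2 - 4 := by
    push_cast
    ring
  rw [h3]

private theorem js_abs (t l : ℕ) : |js t l| ≤ 1 := by
  unfold js
  rcases jacobiSym.trichotomy ((t : ℤ) ^ 2 - 4) l with h | h | h <;> rw [h] <;> norm_num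

private theorem chars (l : ℕ) [Fact l.Prime] (h3 : 3 < l) :
    ringChar (ZMod l) ≠ 2 ∧ (4 : ZMod l) ≠ 0 := by
  constructor
  · rw [ZMod.ringChar_zmod_n]
    omega
  · intro h
    have h1 : ((4 : ℕ) : ZMod l) = 0 := by exact_mod_cast h
    rw [ZMod.natCast_eq_zero_iff] at h1
    have h2 : l ∣ 2 ^ 2 := by
      norm_num
      exact h1
    have h4 : l ∣ 2 := (Fact.out : l.Prime).dvd_of_dvd_pow h2
    have := Nat.le_of_dvd (by norm_num) h4
    omega

/-- the complete sum -/
private theorem jsum (l : ℕ) (hl : l.Prime) (h3 : 3 < l) : ∑ j ∈ range l, js (j + 3) l = -1 := by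
  have : Fact l.Prime := ⟨hl⟩
  have : NeZero l := ⟨hl.ne_zero⟩
  obtain ⟨c1, c2⟩ := chars l h3
  have h1 : ∑ j ∈ range l, quadraticChar (ZMod l) (((j : ZMod l) + 3) ^ 2 - 4) =
      ∑ x : ZMod l, quadraticChar (ZMod l) ((x + 3) ^ 2 - 4) := by
    refine Finset.sum_bij' (fun j _ => (j : ZMod l)) (fun z _ => z.val)
      (fun _ _ => Finset.mem_univ _) (fun z _ => Finset.mem_range.2 (ZMod.val_lt z))
      (fun j hj => ZMod.val_natCast_of_lt (Finset.mem_range.1 hj))
      (fun z _ => ZMod.natCast_zmod_val z) (fun j _ => rfl)
  rw [Finset.sum_congr rfl fun j _ => js_eq l j, ← Int.cast_sum, h1, sum2 c1 c2]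
  norm_num

/-- sums over a period -/
private theorem shift (f : ℕ → ℝ) (l : ℕ) (hf : ∀ x, f (x + l) = f x) (n : ℕ) :
    ∑ j ∈ range l, f (j + n) = ∑ j ∈ range l, f j := by
  induction n with
  | zero => rfl
  | succ n ih =>
    rw [← ih]
    have h1 := Finset.sum_range_succ' (fun j => f (j + n)) l
    have h2 := Finset.sum_range_succ (fun j => f (j + n)) l
    have h3 : f (l + n) = f (0 + n) := by
      rw [Nat.add_comm l n, hf, Nat.zero_add]
    have h4 : ∑ j ∈ range l, f (j + (n + 1)) = ∑ j ∈ range l, f (j + 1 + n) := by
      refine Finset.sum_congr rfl fun j _ => ?_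
      congr 1
      omega
    rw [h4]
    rw [h1] at h2
    rw [h3] at h2
    exact add_right_cancel h2

private theorem SS_per (t l : ℕ) : SS 1 0 (t + l) l = SS 1 0 t l := by
  unfold SS
  refine Finset.filter_congr fun s _ => ?_
  rw [← ZMod.intCast_zmod_eq_zero_iff_dvd, ← ZMod.intCast_zmod_eq_zero_iff_dvd]
  unfold ff fa fb
  push_cast
  rw [ZMod.natCast_self, add_zero]

/-- Module NLB. -/
theorem hNLB (hL : StLOL) (hU : StLOP) : StNLB := by
  intro l hl h32
  have h3 : 3 < l := by omega
  have hP : ¬ l ∣ 1 := by
    intro h
    have := Nat.le_of_dvd (by norm_num) h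
    omega
  have hNN : (NN l : ℝ) = ∑ t ∈ range l, ((SS 1 0 t l).card : ℝ) := by
    unfold NN
    push_cast
    rfl
  have hper : ∀ x, (((SS 1 0 (x + l) l).card : ℕ) : ℝ) = ((SS 1 0 x l).card : ℝ) := by
    intro x
    rw [SS_per]
  constructor
  · obtain ⟨Bd, hBd⟩ : ∃ Bd : Finset ℕ, Bd = (range l).filter (fun j =>
      l ∣ (j + 5) * ((j + 5) - 4) * ((j + 5) + 1) * (2 * (j + 5) + 1)) := ⟨_, rfl⟩
    have hcard : Bd.card ≤ 4 := by
      have hsub : Bd ⊆ {l - 5, l - 1, l - 6, (l - 11) / 2} := by
        intro j hj
        rw [hBd, mem_filter, mem_range] at hj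
        obtain ⟨hj1, hj2⟩ := hj
        have hodd : l % 2 = 1 := by
          rcases hl.eq_two_or_odd with h | h
          · omega
          · exact h
        have key : j = l - 5 ∨ j = l - 1 ∨ j = l - 6 ∨ j = (l - 11) / 2 := by
          rcases (Nat.Prime.dvd_mul hl).1 hj2 with h | h
          · rcases (Nat.Prime.dvd_mul hl).1 h with h | h
            · rcases (Nat.Prime.dvd_mul hl).1 h with h | h
              · obtain ⟨k, hk⟩ := h
                have hk1 : k = 1 := by
                  have : 0 < k := by
                    rcases Nat.eq_zero_or_pos k with h0 | h0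
                    · subst h0
                      omega
                    · exact h0
                  have : k < 2 := by
                    by_contra hc
                    have : l * 2 ≤ l * k := Nat.mul_le_mul_left l (by omega)
                    omega
                  omega
                subst hk1
                omega
              · obtain ⟨k, hk⟩ := h
                have hk1 : k = 1 := by
                  have : 0 < k := by
                    rcases Nat.eq_zero_or_pos k with h0 | h0
                    · subst h0
                      omega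
                    · exact h0
                  have : k < 2 := by
                    by_contra hc
                    have : l * 2 ≤ l * k := Nat.mul_le_mul_left l (by omega)
                    omega
                  omega
                subst hk1
                omega
            · obtain ⟨k, hk⟩ := h
              have hk1 : k = 1 := by
                have : 0 < k := by
                  rcases Nat.eq_zero_or_pos k with h0 | h0
                  · subst h0
                    omega
                  · exact h0
                have : k < 2 := by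
                  by_contra hc
                  have : l * 2 ≤ l * k := Nat.mul_le_mul_left l (by omega)
                  omega
                omega
              subst hk1
              omega
          · obtain ⟨k, hk⟩ := h
            have hk1 : k = 1 := by
              have : 0 < k := by
                rcases Nat.eq_zero_or_pos k with h0 | h0
                · subst h0
                  omega
                · exact h0
              have : k < 3 := by
                by_contra hc
                have : l * 3 ≤ l * k := Nat.mul_le_mul_left l (by omega)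
                omega
              have : k ≠ 2 := by
                rintro rfl
                omega
              omega
            subst hk1
            omega
        simp only [mem_insert, mem_singleton]
        exact key
      exact (card_le_card hsub).trans card_le_four
    have h1 : ∀ j ∈ range l, 2 + js (j + 3) l - (if j ∈ Bd then 3 else 0) ≤
        ((SS 1 0 (j + 5) l).card : ℝ) := by
      intro j hj
      by_cases hb : j ∈ Bd
      · rw [if_pos hb]
        have h2 := (abs_le.1 (js_abs (j + 3) l)).2
        have h4 : (0 : ℝ) ≤ ((SS 1 0 (j + 5) l).card : ℝ) := Nat.cast_nonneg _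
        linarith
      · rw [if_neg hb, sub_zero]
        have h2 : ¬ l ∣ (j + 5) * ((j + 5) - 4) * ((j + 5) + 1) * (2 * (j + 5) + 1) := by
          intro h
          apply hb
          rw [hBd, mem_filter]
          exact ⟨hj, h⟩
        have h4 := hL (j + 5) l hl h32 (by omega) h2
        have h5 : j + 5 - 2 = j + 3 := by omega
        rw [h5] at h4
        exact h4
    have h2 := Finset.sum_le_sum h1
    rw [Finset.sum_sub_distrib, Finset.sum_add_distrib, jsum l hl h3, Finset.sum_const, card_range,
      nsmul_eq_mul, shift (fun t => ((SS 1 0 t l).card : ℝ)) l hper 5, ← hNN] at h2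
    have h4 : ∑ j ∈ range l, (if j ∈ Bd then (3 : ℝ) else 0) ≤ 12 := by
      rw [← Finset.sum_filter, Finset.sum_const, nsmul_eq_mul]
      have h5 : ((range l).filter (fun j => j ∈ Bd)).card ≤ Bd.card :=
        card_le_card fun j hj => (mem_filter.1 hj).2
      have h6 : (((range l).filter (fun j => j ∈ Bd)).card : ℝ) ≤ 4 := by
        exact_mod_cast h5.trans hcard
      linarith
    linarith
  · rw [hNN]
    calc ∑ t ∈ range l, ((SS 1 0 t l).card : ℝ) ≤ ∑ _t ∈ range l, (3 : ℝ) := by
          refine Finset.sum_le_sum fun t _ => ?_
          rw [← hper t]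
          have h1 := (hU 1 0 l hl h3 hP).1 (t + l) (by omega)
          have h2 := (abs_le.1 (js_abs (t + l - 2) l)).2
          linarith
      _ = 3 * l := by
          rw [Finset.sum_const, card_range, nsmul_eq_mul]
          ring

end Pool.Agent.Helper80.LPB
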